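import Pool.Agent.W809.DN.Stms

/-! # Second moment for the multiplication by `b` -/

set_option autoImplicit false

open Finset Filter Topology

namespace W973.DN

open Pool.Agent.W809.DN

theorem nd_sub_ge (x y : ℝ) : nd x - |y| ≤ nd (x - y) := by
  have h := nd_le x (round (x - y))
  have h2 : |x - (round (x - y) : ℝ)| ≤ |x - y - (round (x - y) : ℝ)| + |y| := by
    have := abs_add_le (x - y - (round (x - y) : ℝ)) y
    rwa [show x - y - (round (x - y) : ℝ) + y = x - (round (x - y) : ℝ) by ring] at this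
  have h3 : nd (x - y) = |x - y - (round (x - y) : ℝ)| := rfl
  linarith

theorem norm_le_one (δ : ℕ → ℝ) (hδ : ∀ s, 0 ≤ δ s ∧ δ s ≤ 1) (S : Finset ℕ)
    (x : Finset ℕ → ℝ) : ‖EE δ S (fun A => ee (x A))‖ ≤ 1 := by
  refine (norm_EE_le hδ S _).trans ?_
  simp only [norm_ee]
  rw [EE_const]

theorem pair (h1 : S_CHR) (r : ℕ) (hr : 2 ≤ r) (b : ℝ) (h : ℕ) (δ : ℕ → ℝ) (hδ : Adm δ)
    (ha : Antitone δ) (C' : ℕ) (hC : |(h : ℝ) * b| * ((r : ℝ)⁻¹) ^ C' ≤ 1 / (4 * (r : ℝ)))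
    (N M m n : ℕ) (hn : n < N) (hNM : N ≤ M) (hmn : m + (Nat.sqrt N + C' + 1) ≤ n) :
    ‖EE δ (range M) (fun A => ee ((h : ℝ) * ((r : ℝ) ^ n - (r : ℝ) ^ m) * (b * Z r A)))‖ ≤
      Real.exp (-(δ N * (cnt r ((h : ℝ) * b) N : ℝ) / (4 * (r : ℝ) ^ 2))) := by
  classical
  have hr0 : (0 : ℝ) < r := by exact_mod_cast (by omega : 0 < r)
  have hr1 : (1 : ℝ) ≤ r := by exact_mod_cast (by omega : 1 ≤ r)
  set β : ℝ := (h : ℝ) * b with hβ
  set θ : ℕ → ℝ := fun s => β * ((r : ℝ) ^ n - (r : ℝ) ^ m) * ((r : ℝ)⁻¹) ^ (s + 1) with hθ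
  have e1 : (fun A : Finset ℕ => ee ((h : ℝ) * ((r : ℝ) ^ n - (r : ℝ) ^ m) * (b * Z r A))) =
      fun A => ee (∑ s ∈ A, θ s) := by
    funext A
    congr 1
    rw [hθ]
    simp only
    rw [← Finset.mul_sum, hβ]
    unfold Z
    ring
  rw [e1]
  refine (h1 δ hδ (range M) θ).trans ?_
  apply Real.exp_le_exp.2
  apply neg_le_neg
  set F : Finset ℕ := (range (Nat.sqrt N)).filter
    (fun k => 1 / (2 * (r : ℝ)) ≤ nd (β * (r : ℝ) ^ k)) with hF
  have hcard : (cnt r β N : ℝ) = (F.card : ℝ) := by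
    rw [hF]
    unfold cnt
    congr!
  have hinj : Set.InjOn (fun k => n - 1 - k) (F : Set ℕ) := by
    intro k hk l hl hkl
    have hk' : k < Nat.sqrt N := mem_range.1 (mem_filter.1 (mem_coe.1 hk)).1
    have hl' : l < Nat.sqrt N := mem_range.1 (mem_filter.1 (mem_coe.1 hl)).1
    simp only at hkl
    omega
  have hsub : F.image (fun k => n - 1 - k) ⊆ range M := by
    intro s hs
    obtain ⟨k, -, rfl⟩ := mem_image.1 hs
    rw [mem_range]
    omega
  have hbig : ∀ k ∈ F, δ N * (1 / (4 * (r : ℝ))) ^ 2 ≤ δ (n - 1 - k) * nd (θ (n - 1 - k)) ^ 2 := by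
    intro k hk
    have hk' : k < Nat.sqrt N := mem_range.1 (mem_filter.1 hk).1
    have hk2 : 1 / (2 * (r : ℝ)) ≤ nd (β * (r : ℝ) ^ k) := (mem_filter.1 hk).2
    have e2 : θ (n - 1 - k) = β * (r : ℝ) ^ k - β * ((r : ℝ)⁻¹) ^ (n - k - m) := by
      rw [hθ]
      simp only
      rw [show n - 1 - k + 1 = n - k by omega]
      have e3 : (r : ℝ) ^ n * ((r : ℝ)⁻¹) ^ (n - k) = (r : ℝ) ^ k := by
        conv_lhs => rw [show n = k + (n - k) by omega]
        rw [show k + (n - k) - k = n - k by omega, pow_add, mul_assoc, ← mul_pow,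
          mul_inv_cancel₀ hr0.ne', one_pow, mul_one]
      have e4 : (r : ℝ) ^ m * ((r : ℝ)⁻¹) ^ (n - k) = ((r : ℝ)⁻¹) ^ (n - k - m) := by
        conv_lhs => rw [show n - k = m + (n - k - m) by omega]
        rw [pow_add, ← mul_assoc, ← mul_pow, mul_inv_cancel₀ hr0.ne', one_pow, one_mul]
      calc β * ((r : ℝ) ^ n - (r : ℝ) ^ m) * ((r : ℝ)⁻¹) ^ (n - k)
          = β * ((r : ℝ) ^ n * ((r : ℝ)⁻¹) ^ (n - k)) -
            β * ((r : ℝ) ^ m * ((r : ℝ)⁻¹) ^ (n - k)) := by ring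
        _ = _ := by rw [e3, e4]
    have h5 : |β * ((r : ℝ)⁻¹) ^ (n - k - m)| ≤ 1 / (4 * (r : ℝ)) := by
      refine le_trans ?_ hC
      rw [abs_mul, abs_of_nonneg (by positivity : (0 : ℝ) ≤ ((r : ℝ)⁻¹) ^ (n - k - m))]
      apply mul_le_mul_of_nonneg_left _ (abs_nonneg _)
      apply pow_le_pow_of_le_one (by positivity) (inv_le_one_of_one_le₀ hr1)
      omega
    have h6 : 1 / (4 * (r : ℝ)) ≤ nd (θ (n - 1 - k)) := by
      have h7 := nd_sub_ge (β * (r : ℝ) ^ k) (β * ((r : ℝ)⁻¹) ^ (n - k - m))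
      rw [← e2] at h7
      have h8 : 1 / (2 * (r : ℝ)) = 1 / (4 * (r : ℝ)) + 1 / (4 * (r : ℝ)) := by
        field_simp
        norm_num
      linarith
    have h9 : δ N ≤ δ (n - 1 - k) := ha (by omega)
    exact mul_le_mul h9 (pow_le_pow_left₀ (by positivity) h6 2) (by positivity) (hδ _).1
  have hsum : (F.card : ℝ) * (δ N * (1 / (4 * (r : ℝ))) ^ 2) ≤
      ∑ s ∈ range M, δ s * nd (θ s) ^ 2 := by
    calc (F.card : ℝ) * (δ N * (1 / (4 * (r : ℝ))) ^ 2)
        = ∑ k ∈ F, δ N * (1 / (4 * (r : ℝ))) ^ 2 := by rw [sum_const, nsmul_eq_mul]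
      _ ≤ ∑ k ∈ F, δ (n - 1 - k) * nd (θ (n - 1 - k)) ^ 2 := sum_le_sum hbig
      _ = ∑ s ∈ F.image (fun k => n - 1 - k), δ s * nd (θ s) ^ 2 := by
          rw [sum_image hinj]
      _ ≤ _ := sum_le_sum_of_subset_of_nonneg hsub
          (fun s _ _ => mul_nonneg (hδ s).1 (sq_nonneg _))
  rw [hcard]
  have e5 : δ N * (F.card : ℝ) / (4 * (r : ℝ) ^ 2) =
      4 * ((F.card : ℝ) * (δ N * (1 / (4 * (r : ℝ))) ^ 2)) := by
    field_simp
  rw [e5]
  linarith

theorem sum_close (n D : ℕ) (q : ℝ) (hq : 0 ≤ q) :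
    ∑ m ∈ range n, ((if m + D ≤ n then (0 : ℝ) else 1) + q) ≤ D + n * q := by
  classical
  rw [sum_add_distrib, sum_const, card_range, nsmul_eq_mul]
  have h1 : ∑ m ∈ range n, (if m + D ≤ n then (0 : ℝ) else 1) ≤ D := by
    have h2 : ∑ m ∈ range n, (if m + D ≤ n then (0 : ℝ) else 1) =
        (((range n).filter (fun m => ¬ (m + D ≤ n))).card : ℝ) := by
      rw [← sum_boole]
      refine sum_congr rfl fun m _ => ?_
      by_cases hm : m + D ≤ n
      · simp [hm]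
      · simp [hm]
    rw [h2]
    have h3 : (range n).filter (fun m => ¬ (m + D ≤ n)) ⊆ (range n \ range (n - D)) := by
      intro m hm
      rw [mem_filter, mem_range] at hm
      rw [Finset.mem_sdiff, mem_range, mem_range]
      omega
    have h4 := card_le_card h3
    rw [card_sdiff_of_subset (range_subset_range.2 (by omega)), card_range, card_range] at h4
    exact_mod_cast (by omega : ((range n).filter (fun m => ¬ (m + D ≤ n))).card ≤ D)
  linarith

theorem sqrt_div (C : ℕ) :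
    Tendsto (fun N : ℕ => ((Nat.sqrt N + C + 1 : ℕ) : ℝ) / (N : ℝ)) atTop (𝓝 0) := by
  have h1 : Tendsto (fun N : ℕ => (1 : ℝ) / Real.sqrt (N : ℝ) + ((C : ℝ) + 1) / (N : ℝ)) atTop
      (𝓝 (0 + 0)) := by
    apply Tendsto.add
    · apply Tendsto.div_atTop tendsto_const_nhds
      exact Real.tendsto_sqrt_atTop.comp tendsto_natCast_atTop_atTop
    · exact Tendsto.div_atTop tendsto_const_nhds tendsto_natCast_atTop_atTop
  rw [add_zero] at h1
  refine squeeze_zero' (Eventually.of_forall fun N => by positivity) ?_ h1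
  filter_upwards [eventually_ge_atTop 1] with N hN
  have hN0 : (0 : ℝ) < N := by exact_mod_cast hN
  have hs : 0 < Real.sqrt (N : ℝ) := Real.sqrt_pos.2 hN0
  have h2 : (Nat.sqrt N : ℝ) ≤ Real.sqrt N := Real.nat_sqrt_le_real_sqrt
  have h3 : (1 : ℝ) / Real.sqrt (N : ℝ) = Real.sqrt N / N := by
    rw [div_eq_div_iff hs.ne' hN0.ne', one_mul, Real.mul_self_sqrt hN0.le]
  rw [h3, ← add_div]
  apply div_le_div_of_nonneg_right _ hN0.le
  push_cast
  linarith

theorem lin (h1 : S_CHR) (h2 : S_SEC) : S_LIN := by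
  intro r hr b h δ hδ ha hcnt η hη
  have hr0 : (0 : ℝ) < r := by exact_mod_cast (by omega : 0 < r)
  have hr1 : (1 : ℝ) < r := by exact_mod_cast (by omega : 1 < r)
  obtain ⟨C', hC⟩ : ∃ C' : ℕ, |(h : ℝ) * b| * ((r : ℝ)⁻¹) ^ C' ≤ 1 / (4 * (r : ℝ)) := by
    have h3 : Tendsto (fun C : ℕ => |(h : ℝ) * b| * ((r : ℝ)⁻¹) ^ C) atTop
        (𝓝 (|(h : ℝ) * b| * 0)) := by
      apply Tendsto.const_mul
      exact tendsto_pow_atTop_nhds_zero_of_lt_one (by positivity) (inv_lt_one_of_one_lt₀ hr1)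
    rw [mul_zero] at h3
    exact ((h3.eventually (gt_mem_nhds (by positivity : (0 : ℝ) < 1 / (4 * (r : ℝ))))).exists).imp
      fun C hC => hC.le
  set c : ℕ → ℝ := fun N => (cnt r ((h : ℝ) * b) N : ℝ) with hc
  set q : ℕ → ℝ := fun N => Real.exp (-(δ N * c N / (4 * (r : ℝ) ^ 2))) with hq
  have hq0 : Tendsto q atTop (𝓝 0) := by
    rw [hq]
    apply Real.tendsto_exp_neg_atTop_nhds_zero.comp
    exact hcnt.atTop_div_const (by positivity)
  set D : ℕ → ℕ := fun N => Nat.sqrt N + C' + 1 with hD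
  have hD0 : Tendsto (fun N : ℕ => (D N : ℝ) / (N : ℝ)) atTop (𝓝 0) := sqrt_div C'
  have hT : Tendsto (fun N : ℕ => 1 / (N : ℝ) + 2 * ((D N : ℝ) / (N : ℝ)) + 2 * q N) atTop
      (𝓝 (0 + 2 * 0 + 2 * 0)) :=
    ((Tendsto.div_atTop tendsto_const_nhds tendsto_natCast_atTop_atTop).add
      (hD0.const_mul 2)).add (hq0.const_mul 2)
  rw [show (0 : ℝ) + 2 * 0 + 2 * 0 = 0 by norm_num] at hT
  obtain ⟨N0, hN0⟩ := eventually_atTop.1
    ((hT.eventually (gt_mem_nhds hη)).and (eventually_ge_atTop 1))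
  refine ⟨N0, fun N hN M hM => ?_⟩
  obtain ⟨hN1, hN2⟩ := hN0 N hN
  have hNpos : (0 : ℝ) < N := by exact_mod_cast hN2
  have h3 := h2 δ hδ.le_one (range M) (fun A => b * Z r A) r h N hN2
  refine h3.trans (le_trans ?_ hN1.le)
  have hq1 : 0 ≤ q N := (Real.exp_pos _).le
  have h4 : ∑ n ∈ range N, ∑ m ∈ range n,
      ‖EE δ (range M) (fun A => ee ((h : ℝ) * ((r : ℝ) ^ n - (r : ℝ) ^ m) * (b * Z r A)))‖ ≤
      N * (D N + N * q N) := by
    calc _ ≤ ∑ n ∈ range N, ((D N : ℝ) + N * q N) := by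
          refine sum_le_sum fun n hn => ?_
          rw [mem_range] at hn
          calc _ ≤ ∑ m ∈ range n, ((if m + D N ≤ n then (0 : ℝ) else 1) + q N) := by
                refine sum_le_sum fun m _ => ?_
                by_cases hm : m + D N ≤ n
                · rw [if_pos hm, zero_add]
                  exact pair h1 r hr b h δ hδ ha C' hC N M m n hn hM hm
                · rw [if_neg hm]
                  have := norm_le_one δ hδ.le_one (range M)
                    (fun A => (h : ℝ) * ((r : ℝ) ^ n - (r : ℝ) ^ m) * (b * Z r A))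
                  linarith
            _ ≤ D N + n * q N := sum_close n (D N) (q N) hq1
            _ ≤ D N + N * q N := by
                have : (n : ℝ) * q N ≤ N * q N :=
                  mul_le_mul_of_nonneg_right (by exact_mod_cast hn.le) hq1
                linarith
      _ = N * (D N + N * q N) := by rw [sum_const, card_range, nsmul_eq_mul]
  have h5 : 2 / (N : ℝ) ^ 2 * ∑ n ∈ range N, ∑ m ∈ range n,
      ‖EE δ (range M) (fun A => ee ((h : ℝ) * ((r : ℝ) ^ n - (r : ℝ) ^ m) * (b * Z r A)))‖ ≤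
      2 / (N : ℝ) ^ 2 * (N * (D N + N * q N)) := mul_le_mul_of_nonneg_left h4 (by positivity)
  have h6 : 2 / (N : ℝ) ^ 2 * (N * (D N + N * q N)) = 2 * ((D N : ℝ) / (N : ℝ)) + 2 * q N := by
    field_simp
  linarith

end W973.DN
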